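import Pool.Agent.EntX.L_caseC_F
import Pool.Agent.EntX.L_caseD_F
import Pool.Agent.EntX.L_L1_lower_F
import Pool.Agent.EntX.L_Linf_lower_F
import Pool.Agent.EntX.L_upper_inf_F
import Pool.Agent.EntX.L_upper_two_F
import Pool.Agent.EntX.L_upper_1q_F
import Pool.Agent.EntX.L_upper_pinf_F
import Pool.Agent.EntX.L_entNum_upper_F
import Pool.Agent.EntX.L_entNum_lower_F
import Pool.Agent.EntX.L_WF_mono
import Pool.Agent.EntX.L_L1inf_lower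
import Pool.Agent.EntX.L_L1inf_lower2
import Pool.Agent.EntX.L_Linf_lower
import Pool.Agent.EntX.L_upper_1inf
import Pool.Agent.EntX.L_entNum_upper
import Pool.Agent.EntX.L_entNum_lowerS
import Pool.Agent.EntX.L_F1Leq

set_option autoImplicit false

open MeasureTheory HypVol
open scoped ENNReal

namespace Pool.Agent.Results.MP_cd65c1_an.AllCases

/-- `k^{-r} (log k)^{(d-1) r + s}` -/
noncomputable def ord (d : ℕ) (r s : ℝ) (k : ℕ) : ℝ := (k:ℝ)^(-r) * (Real.log k)^(((d:ℝ)-1) * r + s)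

/-- `e k ≥ c R k` for all `k ≥ 2` -/
def AtLeast (e : ℕ → ℝ≥0∞) (R : ℕ → ℝ) : Prop :=
  ∃ c : ℝ, 0 < c ∧ ∀ k : ℕ, 2 ≤ k → ENNReal.ofReal (c * R k) ≤ e k

/-- `e k ≤ C R k` for all `k ≥ 2` -/
def AtMost (e : ℕ → ℝ≥0∞) (R : ℕ → ℝ) : Prop :=
  ∃ C : ℝ, 0 < C ∧ ∀ k : ℕ, 2 ≤ k → e k ≤ ENNReal.ofReal (C * R k)

/-- same order -/
def Same (e : ℕ → ℝ≥0∞) (R : ℕ → ℝ) : Prop := AtLeast e R ∧ AtMost e R

theorem ord_Rk (d : ℕ) (r : ℝ) : ord d r (1/2) = Rk d r := by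
  funext k; unfold Rk ord; rfl

theorem ord_two (d : ℕ) (r : ℝ) : ord d r 1 = RkS d r 2 := by
  funext k; unfold RkS ord; norm_num

theorem Rk_one (d : ℕ) (r : ℝ) (k : ℕ) : Rk d r k = RkS d r 1 k := by
  unfold RkS Rk; norm_num

theorem Rk_pos (d : ℕ) (r : ℝ) (k : ℕ) (hk : 2 ≤ k) : 0 < Rk d r k := by
  unfold Rk
  have h1 : (1:ℝ) < k := by exact_mod_cast (by omega : 1 < k)
  have h2 : 0 < Real.log k := Real.log_pos h1
  positivity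

theorem RkS_pos (d : ℕ) (r : ℝ) (s k : ℕ) (hk : 2 ≤ k) : 0 < RkS d r s k := by
  unfold RkS
  have h1 : (1:ℝ) < k := by exact_mod_cast (by omega : 1 < k)
  have h2 : 0 < Real.log k := Real.log_pos h1
  positivity

theorem atLeast_F (𝕜 : Type) [RCLike 𝕜] (d : ℕ) (hd : 3 ≤ d) (r : ℝ) (hr : 0 < r) (α : Fin d → ℝ)
    (p q : ℝ≥0∞) (hp : 1 ≤ p) (hq : 1 ≤ q)
    (h : ∃ c : ℝ, 0 < c ∧ ∀ (k : ℕ) (ε : ℝ), 2 ≤ k → 0 < ε →
      Cov q k (ENNReal.ofReal ε) (WF d r p α) → c * Rk d r k ≤ ε) :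
    AtLeast (fun k => entNum q k (ML 𝕜 d r p α)) (Rk d r) := by
  obtain ⟨c, hc, h⟩ := h
  exact entNum_lower_F 𝕜 d hd r hr α p q hp hq c hc h

theorem atMost_F (𝕜 : Type) [RCLike 𝕜] (d : ℕ) (r : ℝ) (hr : 0 < r) (α : Fin d → ℝ)
    (p q : ℝ≥0∞) (hp : 1 ≤ p)
    (h : ∃ C : ℝ, 0 < C ∧ ∀ k : ℕ, 2 ≤ k → Cov q k (ENNReal.ofReal (C * Rk d r k)) (WF d r p α)) :
    AtMost (fun k => entNum q k (ML 𝕜 d r p α)) (Rk d r) := by
  obtain ⟨C, hC, h⟩ := h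
  refine ⟨C, hC, fun k hk => ?_⟩
  exact entNum_upper_F 𝕜 d r hr α p q hp k _ (mul_pos hC (Rk_pos d r k hk)) (h k hk)

theorem two_le_of {x : ℝ} (h : 2 ≤ x) : (2 : ℝ≥0∞) ≤ ENNReal.ofReal x := by
  have := ENNReal.ofReal_le_ofReal h
  rwa [show ENNReal.ofReal 2 = 2 by norm_num] at this

theorem le_two_of {x : ℝ} (h : x ≤ 2) : ENNReal.ofReal x ≤ (2 : ℝ≥0∞) := by
  have := ENNReal.ofReal_le_ofReal h
  rwa [show ENNReal.ofReal 2 = 2 by norm_num] at this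

theorem case_pinf (𝕜 : Type) [RCLike 𝕜] (d : ℕ) (hd : 3 ≤ d) (α : Fin d → ℝ) (r : ℝ)
    (p : ℝ≥0∞) (hp : 1 < p) (hr : max (1/2) (p⁻¹).toReal < r) :
    Same (fun k => entNum ⊤ k (ML 𝕜 d r p α)) (Rk d r) := by
  have hr2 : 1/2 < r := lt_of_le_of_lt (le_max_left _ _) hr
  have hr0 : 0 < r := by linarith
  have hrp : (p⁻¹).toReal < r := lt_of_le_of_lt (le_max_right _ _) hr
  have h2up : ∀ p : ℝ≥0∞, 2 ≤ p → AtMost (fun k => entNum ⊤ k (ML 𝕜 d r p α)) (Rk d r) := by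
    intro p hp2
    refine atMost_F 𝕜 d r hr0 α _ _ (le_trans (by norm_num) hp2) ?_
    obtain ⟨C, hC, h⟩ := upper_inf_F d hd r hr2 α
    exact ⟨C, hC, fun k hk => WF_mono r α 2 p ⊤ ⊤ (by norm_num) hp2 le_rfl k _ (h k hk)⟩
  by_cases hpt : p = ⊤
  · subst hpt
    exact ⟨atLeast_F 𝕜 d hd r hr0 α _ _ le_top le_top (caseC_F d hd r hr2 α), h2up ⊤ le_top⟩
  · obtain ⟨P, rfl⟩ : ∃ P : ℝ, p = ENNReal.ofReal P := ⟨p.toReal, (ENNReal.ofReal_toReal hpt).symm⟩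
    have hP : 1 < P := by
      rw [← ENNReal.ofReal_one] at hp
      exact (ENNReal.ofReal_lt_ofReal_iff_of_nonneg zero_le_one).1 hp
    have hP0 : 0 < P := by linarith
    have hrP : 1 / P < r := by
      rw [ENNReal.toReal_inv, ENNReal.toReal_ofReal hP0.le] at hrp
      rwa [one_div]
    refine ⟨atLeast_F 𝕜 d hd r hr0 α _ _ hp.le le_top (Linf_lower_F d hd P r hP.le hr2 α), ?_⟩
    rcases le_or_gt 2 P with h2 | h2
    · exact h2up _ (two_le_of h2)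
    · exact atMost_F 𝕜 d r hr0 α _ _ hp.le (upper_pinf_F d hd P r hP h2 hrP α)

theorem case_1q (𝕜 : Type) [RCLike 𝕜] (d : ℕ) (hd : 3 ≤ d) (α : Fin d → ℝ) (r : ℝ)
    (q : ℝ≥0∞) (hq : 1 ≤ q) (hq' : q ≠ ⊤) (hr : max (1/2) (1 - (q⁻¹).toReal) < r) :
    Same (fun k => entNum q k (ML 𝕜 d r 1 α)) (Rk d r) := by
  have hr2 : 1/2 < r := lt_of_le_of_lt (le_max_left _ _) hr
  have hr0 : 0 < r := by linarith
  have hrq : 1 - (q⁻¹).toReal < r := lt_of_le_of_lt (le_max_right _ _) hr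
  obtain ⟨Q, rfl⟩ : ∃ Q : ℝ, q = ENNReal.ofReal Q := ⟨q.toReal, (ENNReal.ofReal_toReal hq').symm⟩
  have hQ : 1 ≤ Q := by
    rw [← ENNReal.ofReal_one] at hq
    by_contra hcon
    exact absurd hq (not_le.2 ((ENNReal.ofReal_lt_ofReal_iff zero_lt_one).2 (not_le.1 hcon)))
  have hQ0 : 0 < Q := by linarith
  have hrQ : 1 - 1 / Q < r := by
    rw [ENNReal.toReal_inv, ENNReal.toReal_ofReal hQ0.le] at hrq
    rwa [one_div]
  refine ⟨atLeast_F 𝕜 d hd r hr0 α _ _ le_rfl hq ?_, ?_⟩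
  · rcases hQ.lt_or_eq with hlt | heq
    · exact L1_lower_F d hd Q r hlt hr2 α
    · subst heq
      obtain ⟨c, hc, h⟩ := caseD_F d hd r hr2 α
      refine ⟨c, hc, fun k ε hk hε hcov => ?_⟩
      rw [ENNReal.ofReal_one] at hcov
      exact h k ε hk hε hcov
  · rcases le_or_gt Q 2 with h2 | h2
    · refine atMost_F 𝕜 d r hr0 α _ _ le_rfl ?_
      obtain ⟨C, hC, h⟩ := upper_two_F d hd r hr2 α
      exact ⟨C, hC, fun k hk => WF_mono r α 1 1 2 _ le_rfl le_rfl (le_two_of h2) k _ (h k hk)⟩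
    · exact atMost_F 𝕜 d r hr0 α _ _ le_rfl (upper_1q_F d hd Q r h2 hrQ α)

theorem case_1inf_upper (𝕜 : Type) [RCLike 𝕜] (d : ℕ) (hd : 3 ≤ d) (α : Fin d → ℝ) (r : ℝ) (hr : 1 < r) :
    AtMost (fun k => entNum ⊤ k (ML 𝕜 d r 1 α)) (RkS d r 2) := by
  obtain ⟨C, hC, h⟩ := upper_1inf d hd r hr α
  refine ⟨C, hC, fun k hk => ?_⟩
  rw [ML_eq_MW 𝕜 d r hr]
  exact entNum_upper 𝕜 d r hr α _ _ k _ (mul_pos hC (RkS_pos d r 2 k hk)) (h k hk)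

theorem case_1inf_lower (𝕜 : Type) [RCLike 𝕜] (d : ℕ) (hd : 3 ≤ d) (r : ℝ) (hr : 1 < r) :
    AtLeast (fun k => entNum ⊤ k (ML 𝕜 d r 1 (fun _ => r))) (RkS d r 2) := by
  have key : ∃ c : ℝ, 0 < c ∧ ∀ (k : ℕ) (ε : ℝ), 2 ≤ k → 0 < ε →
      Cov ⊤ k (ENNReal.ofReal ε) (MW ℂ d r 1 (fun _ => r)) → c * RkS d r 2 k ≤ ε := by
    rcases le_or_gt 2 r with h2 | h2
    · exact L1inf_lower2 d hd r h2 (fun _ => r)
    · refine L1inf_lower d hd r hr (fun _ => r) (fun _ => ne_of_lt ?_)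
      have hpi := Real.pi_pos
      exact Real.cos_neg_of_pi_div_two_lt_of_lt (by nlinarith) (by nlinarith)
  obtain ⟨c, hc, h⟩ := key
  obtain ⟨c', hc', h'⟩ := entNum_lowerS 𝕜 d hd r hr (fun _ => r) 1 ⊤ le_rfl le_top 2 c hc h
  refine ⟨c', hc', fun k hk => ?_⟩
  rw [ML_eq_MW 𝕜 d r hr]
  exact h' k hk

/-- Orders of the entropy numbers of the mixed-smoothness classes in all extreme cases. -/
theorem result (𝕜 : Type) [RCLike 𝕜] (d : ℕ) (hd : 3 ≤ d) (r : ℝ) :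
    (∀ p : ℝ≥0∞, 1 < p → max (1/2) (p⁻¹).toReal < r →
      Same (fun k => entNum ⊤ k (ML 𝕜 d r p (fun _ => r))) (ord d r (1/2))) ∧
    (∀ q : ℝ≥0∞, 1 ≤ q → q ≠ ⊤ → max (1/2) (1 - (q⁻¹).toReal) < r →
      Same (fun k => entNum q k (ML 𝕜 d r 1 (fun _ => r))) (ord d r (1/2))) ∧
    (1 < r → Same (fun k => entNum ⊤ k (ML 𝕜 d r 1 (fun _ => r))) (ord d r 1)) := by
  rw [ord_Rk, ord_two]
  exact ⟨fun p hp hr => case_pinf 𝕜 d hd _ r p hp hr, fun q hq hq' hr => case_1q 𝕜 d hd _ r q hq hq' hr,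
    fun hr => ⟨case_1inf_lower 𝕜 d hd r hr, case_1inf_upper 𝕜 d hd _ r hr⟩⟩

end Pool.Agent.Results.MP_cd65c1_an.AllCases
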