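import Pool.Agent.EntX.L_caseC
import Pool.Agent.EntX.L_caseD
import Pool.Agent.EntX.L_L1_lower
import Pool.Agent.EntX.L_Linf_lower
import Pool.Agent.EntX.L_L1inf_lower
import Pool.Agent.EntX.L_upper_1q
import Pool.Agent.EntX.L_upper_pinf
import Pool.Agent.EntX.L_upper_1inf
import Pool.Agent.EntX.L_entNum_upper
import Pool.Agent.EntX.L_entNum_lowerS
import Pool.Agent.EntX.L_MW_mono

set_option autoImplicit false

open MeasureTheory HypVol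
open scoped ENNReal

namespace Pool.Agent.Results.MP_cd65c1_an.Orders

/-- `k^{-r} (log k)^{(d-1) r + s}` -/
noncomputable def ord (d : ℕ) (r s : ℝ) (k : ℕ) : ℝ := (k:ℝ)^(-r) * (Real.log k)^(((d:ℝ)-1) * r + s)

/-- `e k ≥ c R k` for all `k ≥ 2` -/
def AtLeast (e : ℕ → ℝ≥0∞) (R : ℕ → ℝ) : Prop :=
  ∃ c : ℝ, 0 < c ∧ ∀ k : ℕ, 2 ≤ k → ENNReal.ofReal (c * R k) ≤ e k

/-- `e k ≤ C R k` for all `k ≥ 2` -/
def AtMost (e : ℕ → ℝ≥0∞) (R : ℕ → ℝ) : Prop :=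
  ∃ C : ℝ, 0 < C ∧ ∀ k : ℕ, 2 ≤ k → e k ≤ ENNReal.ofReal (C * R k)

/-- same order -/
def Same (e : ℕ → ℝ≥0∞) (R : ℕ → ℝ) : Prop := AtLeast e R ∧ AtMost e R

theorem ord_one (d : ℕ) (r : ℝ) (k : ℕ) : RkS d r 1 k = ord d r (1/2) k := by
  unfold RkS ord; norm_num

theorem ord_two (d : ℕ) (r : ℝ) (k : ℕ) : RkS d r 2 k = ord d r 1 k := by
  unfold RkS ord; norm_num

theorem ord_Rk (d : ℕ) (r : ℝ) (k : ℕ) : Rk d r k = RkS d r 1 k := by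
  unfold RkS Rk; norm_num

theorem RkS_pos (d : ℕ) (r : ℝ) (s k : ℕ) (hk : 2 ≤ k) : 0 < RkS d r s k := by
  unfold RkS
  have h1 : (1:ℝ) < k := by exact_mod_cast (by omega : 1 < k)
  have h2 : 0 < Real.log k := Real.log_pos h1
  positivity

theorem atLeast_of (𝕜 : Type) [RCLike 𝕜] (d : ℕ) (hd : 3 ≤ d) (r : ℝ) (hr : 1 < r) (α : Fin d → ℝ)
    (p q : ℝ≥0∞) (hp : 1 ≤ p) (hq : 1 ≤ q) (s : ℕ)
    (h : ∃ c : ℝ, 0 < c ∧ ∀ (k : ℕ) (ε : ℝ), 2 ≤ k → 0 < ε →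
      Cov q k (ENNReal.ofReal ε) (MW ℂ d r p α) → c * RkS d r s k ≤ ε) :
    AtLeast (fun k => entNum q k (MW 𝕜 d r p α)) (RkS d r s) := by
  obtain ⟨c, hc, h⟩ := h
  exact entNum_lowerS 𝕜 d hd r hr α p q hp hq s c hc h

theorem atMost_of (𝕜 : Type) [RCLike 𝕜] (d : ℕ) (r : ℝ) (hr : 1 < r) (α : Fin d → ℝ)
    (p q : ℝ≥0∞) (s : ℕ)
    (h : ∃ C : ℝ, 0 < C ∧ ∀ k : ℕ, 2 ≤ k → Cov q k (ENNReal.ofReal (C * RkS d r s k)) (MW ℂ d r p α)) :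
    AtMost (fun k => entNum q k (MW 𝕜 d r p α)) (RkS d r s) := by
  obtain ⟨C, hC, h⟩ := h
  refine ⟨C, hC, fun k hk => ?_⟩
  exact entNum_upper 𝕜 d r hr α p q k _ (mul_pos hC (RkS_pos d r s k hk)) (h k hk)

/-- Orders of the entropy numbers of the mixed-smoothness classes in the extreme cases. -/
theorem result (𝕜 : Type) [RCLike 𝕜] (d : ℕ) (hd : 3 ≤ d) (r : ℝ) (hr : 1 < r) (α : Fin d → ℝ) :
    (∀ p : ℝ≥0∞, 1 < p → Same (fun k => entNum ⊤ k (MW 𝕜 d r p α)) (ord d r (1/2))) ∧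
    (∀ q : ℝ≥0∞, 1 ≤ q → q ≠ ⊤ → Same (fun k => entNum q k (MW 𝕜 d r 1 α)) (ord d r (1/2))) ∧
    ((∀ j, Real.cos (α j * Real.pi / 2) ≠ 0) →
      Same (fun k => entNum ⊤ k (MW 𝕜 d r 1 α)) (ord d r 1)) ∧
    AtLeast (fun k => entNum ⊤ k (MW 𝕜 d r 1 α)) (ord d r (1/2)) ∧
    AtMost (fun k => entNum ⊤ k (MW 𝕜 d r 1 α)) (ord d r 1) := by
  have e1 : ord d r (1/2) = RkS d r 1 := by funext k; exact (ord_one d r k).symm
  have e2 : ord d r 1 = RkS d r 2 := by funext k; exact (ord_two d r k).symm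
  rw [e1, e2]
  have hLinf : ∀ p : ℝ, 1 ≤ p → AtLeast (fun k => entNum ⊤ k (MW 𝕜 d r (ENNReal.ofReal p) α)) (RkS d r 1) := by
    intro p hp
    refine atLeast_of 𝕜 d hd r hr α _ _ (by rw [← ENNReal.ofReal_one]; exact ENNReal.ofReal_le_ofReal hp)
      le_top 1 ?_
    obtain ⟨c, hc, h⟩ := Linf_lower d hd p r hp hr α
    exact ⟨c, hc, fun k ε hk hε hcov => by rw [← ord_Rk]; exact h k ε hk hε hcov⟩
  have h1inf : AtMost (fun k => entNum ⊤ k (MW 𝕜 d r 1 α)) (RkS d r 2) :=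
    atMost_of 𝕜 d r hr α _ _ 2 (upper_1inf d hd r hr α)
  refine ⟨fun p hp => ?_, fun q hq hq' => ?_, fun hα => ?_, ?_, h1inf⟩
  · by_cases hpt : p = ⊤
    · subst hpt
      refine ⟨atLeast_of 𝕜 d hd r hr α _ _ le_top le_top 1 ?_, atMost_of 𝕜 d r hr α _ _ 1 ?_⟩
      · obtain ⟨c, hc, h⟩ := caseC d hd r hr α
        exact ⟨c, hc, fun k ε hk hε hcov => by rw [← ord_Rk]; exact h k ε hk hε hcov⟩
      · obtain ⟨C, hC, h⟩ := upper_pinf d hd 2 r (by norm_num) hr α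
        exact ⟨C, hC, fun k hk => MW_mono r α (ENNReal.ofReal 2) ⊤ ⊤ ⊤ le_top le_rfl k _ hr
          (by rw [← ENNReal.ofReal_one]; exact ENNReal.ofReal_le_ofReal (by norm_num)) (h k hk)⟩
    · obtain ⟨P, rfl⟩ : ∃ P : ℝ, p = ENNReal.ofReal P := ⟨p.toReal, (ENNReal.ofReal_toReal hpt).symm⟩
      have hP : 1 < P := by
        rw [← ENNReal.ofReal_one] at hp
        exact (ENNReal.ofReal_lt_ofReal_iff_of_nonneg zero_le_one).1 hp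
      exact ⟨hLinf P hP.le, atMost_of 𝕜 d r hr α _ _ 1 (upper_pinf d hd P r hP hr α)⟩
  · obtain ⟨Q, rfl⟩ : ∃ Q : ℝ, q = ENNReal.ofReal Q := ⟨q.toReal, (ENNReal.ofReal_toReal hq').symm⟩
    have hQ : 1 ≤ Q := by
      rw [← ENNReal.ofReal_one] at hq
      by_contra hcon
      exact absurd hq (not_le.2 ((ENNReal.ofReal_lt_ofReal_iff zero_lt_one).2 (not_le.1 hcon)))
    refine ⟨atLeast_of 𝕜 d hd r hr α _ _ le_rfl hq 1 ?_, atMost_of 𝕜 d r hr α _ _ 1 (upper_1q d hd Q r hQ hr α)⟩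
    rcases hQ.lt_or_eq with hlt | heq
    · obtain ⟨c, hc, h⟩ := L1_lower d hd Q r hlt hr α
      exact ⟨c, hc, fun k ε hk hε hcov => by rw [← ord_Rk]; exact h k ε hk hε hcov⟩
    · subst heq
      obtain ⟨c, hc, h⟩ := caseD d hd r hr α
      refine ⟨c, hc, fun k ε hk hε hcov => ?_⟩
      rw [ENNReal.ofReal_one] at hcov
      rw [← ord_Rk]; exact h k ε hk hε hcov
  · exact ⟨atLeast_of 𝕜 d hd r hr α _ _ le_rfl le_top 2 (L1inf_lower d hd r hr α hα), h1inf⟩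
  · have := hLinf 1 le_rfl
    rwa [ENNReal.ofReal_one] at this

end Pool.Agent.Results.MP_cd65c1_an.Orders
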